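import Pool.Agent.W117.GH.Stm

set_option autoImplicit false

namespace Pool.Agent.W427.GH

open Pool.Agent.W117.GH

theorem u_le (u : ℝ) : u - Real.exp u ≤ -(Real.exp u / 2) := by
  rcases le_or_gt u 0 with h | h
  · have := Real.exp_pos u
    linarith
  · have := Real.quadratic_le_exp_of_nonneg h.le
    nlinarith [sq_nonneg (u - 1)]

theorem exp_le (a u : ℝ) (ha : 0 < a) :
    Real.exp (a * (u - Real.exp u)) ≤ Real.exp (-(a * Real.exp u / 2)) := by
  apply Real.exp_le_exp.mpr
  have := mul_le_mul_of_nonneg_left (u_le u) ha.le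
  linarith

theorem one_bd (t : ℝ) (ht : 0 ≤ t) : Real.exp (-t) ≤ 1 := by
  rw [Real.exp_le_one_iff]
  linarith

theorem lin_bd (t : ℝ) : t * Real.exp (-t) ≤ 1 := by
  have h1 := Real.add_one_le_exp t
  have h2 := Real.exp_pos (-t)
  have h3 : Real.exp t * Real.exp (-t) = 1 := by rw [← Real.exp_add]; simp
  nlinarith

theorem quad_bd (t : ℝ) (ht : 0 ≤ t) : t ^ 2 * Real.exp (-t) ≤ 2 := by
  have h1 := Real.quadratic_le_exp_of_nonneg ht
  have h2 := Real.exp_pos (-t)
  have h3 : Real.exp t * Real.exp (-t) = 1 := by rw [← Real.exp_add]; simp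
  nlinarith [mul_nonneg ht h2.le]

theorem X_bd (a X : ℝ) (ha : 0 < a) : X * Real.exp (-(a * X / 2)) ≤ 2 / a := by
  have h1 := lin_bd (a * X / 2)
  rw [le_div_iff₀ ha]
  nlinarith

theorem X2_bd (a X : ℝ) (ha : 0 < a) (hX : 0 ≤ X) :
    X ^ 2 * Real.exp (-(a * X / 2)) ≤ 8 / a ^ 2 := by
  have h1 := quad_bd (a * X / 2) (by positivity)
  rw [le_div_iff₀ (by positivity)]
  nlinarith

theorem fa_deriv (a u : ℝ) : HasDerivAt (fa a)
    (Real.exp (a * (u - Real.exp u)) * (a * (1 - Real.exp u) ^ 2 - Real.exp u)) u := by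
  have h1 : HasDerivAt (fun u : ℝ => a * (u - Real.exp u)) (a * (1 - Real.exp u)) u :=
    ((hasDerivAt_id u).sub (Real.hasDerivAt_exp u)).const_mul a
  have h2 : HasDerivAt (fun u : ℝ => 1 - Real.exp u) (-Real.exp u) u :=
    (Real.hasDerivAt_exp u).const_sub 1
  have h3 : HasDerivAt (fa a) (Real.exp (a * (u - Real.exp u)) * (a * (1 - Real.exp u)) *
      (1 - Real.exp u) + Real.exp (a * (u - Real.exp u)) * (-Real.exp u)) u := h1.exp.mul h2
  exact h3.congr_deriv (by ring)

theorem main : PropFA := by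
  intro a ha
  refine ⟨⟨1 + 2 / a, ?_⟩, 2 * a + 2 * a * (8 / a ^ 2) + 2 / a, ?_⟩
  · intro u
    have hX := Real.exp_pos u
    have hE := Real.exp_pos (a * (u - Real.exp u))
    have h1 := exp_le a u ha
    have h2 := X_bd a (Real.exp u) ha
    have h3 := one_bd (a * Real.exp u / 2) (by positivity)
    unfold fa
    rw [abs_mul, abs_of_pos hE]
    have h4 : |1 - Real.exp u| ≤ 1 + Real.exp u := by
      rw [abs_le]
      constructor <;> linarith
    calc Real.exp (a * (u - Real.exp u)) * |1 - Real.exp u|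
        ≤ Real.exp (-(a * Real.exp u / 2)) * (1 + Real.exp u) :=
          mul_le_mul h1 h4 (abs_nonneg _) (Real.exp_pos _).le
      _ ≤ 1 + 2 / a := by linarith
  · have hb : ∀ u, ‖Real.exp (a * (u - Real.exp u)) * (a * (1 - Real.exp u) ^ 2 -
        Real.exp u)‖ ≤ 2 * a + 2 * a * (8 / a ^ 2) + 2 / a := by
      intro u
      have hX := Real.exp_pos u
      have hE := Real.exp_pos (a * (u - Real.exp u))
      have h1 := exp_le a u ha
      have h2 := X_bd a (Real.exp u) ha
      have h3 := one_bd (a * Real.exp u / 2) (by positivity)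
      have h5 := X2_bd a (Real.exp u) ha hX.le
      rw [norm_mul, Real.norm_eq_abs, Real.norm_eq_abs, abs_of_pos hE]
      have h4 : |a * (1 - Real.exp u) ^ 2 - Real.exp u| ≤
          2 * a + 2 * a * Real.exp u ^ 2 + Real.exp u := by
        have h6 : 0 ≤ a * (1 - Real.exp u) ^ 2 := by positivity
        have h7 : a * (1 - Real.exp u) ^ 2 ≤ 2 * a + 2 * a * Real.exp u ^ 2 := by
          nlinarith [mul_nonneg ha.le (sq_nonneg (1 + Real.exp u))]
        have h8 : 0 ≤ 2 * a + 2 * a * Real.exp u ^ 2 := by positivity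
        rw [abs_le]
        constructor <;> linarith
      calc Real.exp (a * (u - Real.exp u)) * |a * (1 - Real.exp u) ^ 2 - Real.exp u|
          ≤ Real.exp (-(a * Real.exp u / 2)) * (2 * a + 2 * a * Real.exp u ^ 2 + Real.exp u) :=
            mul_le_mul h1 h4 (abs_nonneg _) (Real.exp_pos _).le
        _ = 2 * a * Real.exp (-(a * Real.exp u / 2)) +
            2 * a * (Real.exp u ^ 2 * Real.exp (-(a * Real.exp u / 2))) +
            Real.exp u * Real.exp (-(a * Real.exp u / 2)) := by ring
        _ ≤ 2 * a * 1 + 2 * a * (8 / a ^ 2) + 2 / a := by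
            have h2a : 0 ≤ 2 * a := by positivity
            exact add_le_add (add_le_add (mul_le_mul_of_nonneg_left h3 h2a)
              (mul_le_mul_of_nonneg_left h5 h2a)) h2
        _ = _ := by ring
    intro u w
    have := Convex.norm_image_sub_le_of_norm_hasDerivWithin_le (f := fa a) (s := Set.univ)
      (fun x _ => (fa_deriv a x).hasDerivWithinAt) (fun x _ => hb x) convex_univ
      (Set.mem_univ w) (Set.mem_univ u)
    simpa [Real.norm_eq_abs] using this

end Pool.Agent.W427.GH
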